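import Pool.Agent.Lib.MP_5e4520_nt.Final

set_option autoImplicit false

namespace Pool.Agent.Results.MP_5e4520_nt.LogLogPower

/-- For almost every pair and every shift, infinitely many `q` satisfy
`q log q ‖q x1 - γ1‖ ‖q x2 - γ2‖ ≤ (log log q)^100`. -/
theorem result :
    ∀ᵐ x : ℝ × ℝ ∂MeasureTheory.volume, ∀ γ : ℝ × ℝ, ∀ N : ℕ, ∃ q : ℕ, N ≤ q ∧
      (q : ℝ) * Real.log (q : ℝ)
        * |(q : ℝ) * x.1 - γ.1 - ((round ((q : ℝ) * x.1 - γ.1) : ℤ) : ℝ)|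
        * |(q : ℝ) * x.2 - γ.2 - ((round ((q : ℝ) * x.2 - γ.2) : ℤ) : ℝ)| ≤
        Real.log (Real.log (q : ℝ)) ^ 100 :=
  _root_.MP_5e4520_nt.final

end Pool.Agent.Results.MP_5e4520_nt.LogLogPower
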